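import Pool.Agent.TH814.GD.Ax

/-!
# The analytic sets with few algebraic relations between the coordinates and their Gamma values

The theorem of Ax-Schanuel type for `Γ` in codimension at most one (`Pool.Agent.TH814.GD.ax`) and what follows from it
about the analytic sets `Z` for which the Zariski closure of the graph of `Γ` over `Z` has the least dimension.
-/

set_option autoImplicit false
set_option linter.unusedSectionVars false

namespace Pool.Agent.U297.BA

open Module Filter Topology MvPolynomial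
open Pool.Agent.TH814.GD Pool.Agent.TH814.GS

/-- `h` is not constant on `Ω` -/
def NC {E : Type} (Ω : Set E) (h : E → ℂ) : Prop := ∀ v : ℂ, ¬ ∀ x ∈ Ω, h x = v

/-- the points of `Ω` at which no `f i` is a pole of `Γ` -/
def Dom {E : Type} {n : ℕ} (Ω : Set E) (f : Fin n → E → ℂ) : Set E := {x ∈ Ω | ∀ i, ∀ m : ℕ, f i x ≠ -m}

/-- `k` of the functions `h i` are algebraically independent over `ℂ` on the set `D` -/
def TrdegGe {E ι : Type} (D : Set E) (h : ι → E → ℂ) (k : ℕ) : Prop :=
  ∃ e : Fin k → ι, Function.Injective e ∧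
    ∀ P : MvPolynomial (Fin k) ℂ, (∀ x ∈ D, MvPolynomial.eval (fun j => h (e j) x) P = 0) → P = 0

/-- the functions `Γ(f i)` -/
noncomputable def Gam {E : Type} {n : ℕ} (f : Fin n → E → ℂ) : Fin n → E → ℂ := fun i x => Complex.Gamma (f i x)

/-- representatives of the classes modulo integers of the nonconstant functions `f i` -/
def Reps {E : Type} {n N : ℕ} (Ω : Set E) (f : Fin n → E → ℂ) (a : Fin N → Fin n) : Prop :=
  (∀ j, NC Ω (f (a j))) ∧ (∀ j k, j ≠ k → ∀ m : ℤ, ¬ ∀ x ∈ Ω, f (a j) x = f (a k) x + m) ∧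
    ∀ i, NC Ω (f i) → ∃ j, ∃ m : ℤ, ∀ x ∈ Ω, f i x = f (a j) x + m

/-- there are exactly `N` different functions among the nonconstant functions `f i` -/
def Distinct {E : Type} {n : ℕ} (Ω : Set E) (f : Fin n → E → ℂ) (N : ℕ) : Prop :=
  ∃ a : Fin N → Fin n, (∀ j, NC Ω (f (a j))) ∧ (∀ j k, j ≠ k → ¬ ∀ x ∈ Ω, f (a j) x = f (a k) x) ∧
    ∀ i, NC Ω (f i) → ∃ j, ∀ x ∈ Ω, f i x = f (a j) x

/-- the rank of the differentials -/
noncomputable def rk {E : Type} [NormedAddCommGroup E] [NormedSpace ℂ E] {n : ℕ} (f : Fin n → E → ℂ) (x : E) : ℕ :=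
  finrank ℂ (Submodule.span ℂ (Set.range fun i => fderiv ℂ (f i) x))

/-! ### Transcendence degree -/

lemma trdegGe_mono {E ι : Type} {D : Set E} {h : ι → E → ℂ} {k l : ℕ} (hkl : k ≤ l) (H : TrdegGe D h l) :
    TrdegGe D h k := by
  obtain ⟨e, he, h1⟩ := H
  refine ⟨fun j => e (Fin.castLE hkl j), he.comp (Fin.castLE_injective hkl), fun P hP => ?_⟩
  have h2 := h1 (rename (Fin.castLE hkl) P) (fun x hx => by
    rw [eval_rename]
    exact hP x hx)
  exact (map_eq_zero_iff _ (rename_injective _ (Fin.castLE_injective hkl))).1 h2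

lemma trdegGe_of_fintype {E ι κ : Type} [Fintype κ] {D : Set E} {h : ι → E → ℂ} {e : κ → ι}
    (he : Function.Injective e)
    (H : ∀ P : MvPolynomial κ ℂ, (∀ x ∈ D, MvPolynomial.eval (fun j => h (e j) x) P = 0) → P = 0) :
    TrdegGe D h (Fintype.card κ) := by
  let q := Fintype.equivFin κ
  refine ⟨fun j => e (q.symm j), he.comp q.symm.injective, fun P hP => ?_⟩
  have h2 := H (rename q.symm P) (fun x hx => by
    rw [eval_rename]
    exact hP x hx)
  exact (map_eq_zero_iff _ (rename_injective _ q.symm.injective)).1 h2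

/-- if all functions are polynomials in `card τ` functions then the transcendence degree is at most `card τ` -/
lemma not_trdegGe {E ι τ : Type} [Fintype τ] {D : Set E} {h : ι → E → ℂ} (t : E → τ → ℂ)
    (S : ι → MvPolynomial τ ℂ) (hS : ∀ i, ∀ x ∈ D, h i x = eval (t x) (S i)) {k : ℕ}
    (hk : Fintype.card τ < k) : ¬ TrdegGe D h k := by
  rintro ⟨e, he, H⟩
  have hdep : ¬ AlgebraicIndependent ℂ (fun j => S (e j)) := by
    intro hI
    have h1 := hI.lift_cardinalMk_le_trdeg
    rw [MvPolynomial.trdeg_of_isDomain] at h1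
    simp only [Cardinal.mk_fintype, Fintype.card_fin, Cardinal.lift_natCast, Nat.cast_le] at h1
    omega
  rw [algebraicIndependent_iff] at hdep
  push Not at hdep
  obtain ⟨P, hP, hP0⟩ := hdep
  apply hP0
  refine H P fun x hx => ?_
  have h2 : (fun j => h (e j) x) = fun j => eval (t x) (S (e j)) := funext fun j => hS (e j) x hx
  rw [h2]
  have h3 := congrArg (eval (t x)) hP
  rw [map_zero] at h3
  rw [← h3]
  exact (eval₂Hom_bind₁ (RingHom.id ℂ) (t x) (fun j => S (e j)) P).symm

lemma exists_sub {α : Type} [DecidableEq α] (s : Finset α) {k : ℕ} (h : k ≤ s.card) :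
    ∃ u : Fin k → α, Function.Injective u ∧ ∀ j, u j ∈ s := by
  obtain ⟨t, ht, hk⟩ := Finset.exists_subset_card_eq h
  refine ⟨fun j => (t.equivFinOfCardEq hk).symm j, fun i j hij => ?_, fun j => ht ((t.equivFinOfCardEq hk).symm j).2⟩
  exact (t.equivFinOfCardEq hk).symm.injective (Subtype.ext hij)

/-- the transcendence degree of the union of two lists is at most the sum of the transcendence degrees -/
lemma not_trdegGe_sum {E ι κ : Type} {D : Set E} {h : ι → E → ℂ} {h' : κ → E → ℂ} {k l : ℕ}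
    (H : ¬ TrdegGe D h (k + 1)) (H' : ¬ TrdegGe D h' (l + 1)) :
    ¬ TrdegGe D (Sum.elim h h') (k + l + 1) := by
  classical
  rintro ⟨e, he, hI⟩
  let A : Finset (Fin (k + l + 1)) := Finset.univ.filter fun j => (e j).isLeft
  let B : Finset (Fin (k + l + 1)) := Finset.univ.filter fun j => ¬ (e j).isLeft
  have hAB : A.card + B.card = k + l + 1 := by
    have := Finset.card_filter_add_card_filter_not (s := (Finset.univ : Finset (Fin (k + l + 1))))
      (fun j => (e j).isLeft)
    rw [Finset.card_univ, Fintype.card_fin] at this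
    exact this
  have key : ∀ {m : ℕ} (u : Fin m → Fin (k + l + 1)), Function.Injective u →
      ∀ P : MvPolynomial (Fin m) ℂ, (∀ x ∈ D, eval (fun j => Sum.elim h h' (e (u j)) x) P = 0) → P = 0 := by
    intro m u hu P hP
    have h2 := hI (rename u P) (fun x hx => by
      rw [eval_rename]
      exact hP x hx)
    exact (map_eq_zero_iff _ (rename_injective _ hu)).1 h2
  have hor : k + 1 ≤ A.card ∨ l + 1 ≤ B.card := by omega
  rcases hor with hA | hB
  · obtain ⟨u, hu, huA⟩ := exists_sub A hA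
    have h1 : ∀ j, ∃ i, e (u j) = Sum.inl i := by
      intro j
      have := huA j
      rw [Finset.mem_filter] at this
      exact Sum.isLeft_iff.1 this.2
    choose i hi using h1
    refine H ⟨i, fun j j' hj => hu (he ?_), fun P hP => key u hu P fun x hx => ?_⟩
    · rw [hi, hi, hj]
    · rw [← hP x hx]
      congr 2
      funext j
      rw [hi]
      rfl
  · obtain ⟨u, hu, huB⟩ := exists_sub B hB
    have h1 : ∀ j, ∃ i, e (u j) = Sum.inr i := by
      intro j
      have := huB j
      rw [Finset.mem_filter] at this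
      have h2 := this.2
      rw [Sum.not_isLeft] at h2
      exact Sum.isRight_iff.1 h2
    choose i hi using h1
    refine H' ⟨i, fun j j' hj => hu (he ?_), fun P hP => key u hu P fun x hx => ?_⟩
    · rw [hi, hi, hj]
    · rw [← hP x hx]
      congr 2
      funext j
      rw [hi]
      rfl

/-! ### The functional equation -/

lemma eval_aeval {τ : Type} (z : τ → ℂ) (j : τ) (q : Polynomial ℂ) :
    eval z (Polynomial.aeval (X j : MvPolynomial τ ℂ) q) = q.eval (z j) := by
  have h := Polynomial.aeval_algHom_apply (MvPolynomial.aeval z : MvPolynomial τ ℂ →ₐ[ℂ] ℂ) (X j) q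
  rw [MvPolynomial.aeval_X, Polynomial.coe_aeval_eq_eval] at h
  rw [h]
  rfl

lemma gamma_add {z : ℂ} (hz : ∀ m : ℕ, z ≠ -m) (m : ℕ) :
    Complex.Gamma (z + m) = Complex.Gamma z * (ascPochhammer ℂ m).eval z := by
  induction m with
  | zero => simp
  | succ m ih =>
    have h0 : z + m ≠ 0 := fun h => hz m (eq_neg_of_add_eq_zero_left h)
    rw [Nat.cast_succ, ← add_assoc, Complex.Gamma_add_one _ h0, ih, ascPochhammer_succ_right, Polynomial.eval_mul]
    simp only [Polynomial.eval_add, Polynomial.eval_X, Polynomial.eval_natCast]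
    ring

lemma const_of_not_NC {E : Type} {Ω : Set E} {h : E → ℂ} (H : ¬ NC Ω h) : ∃ v : ℂ, ∀ x ∈ Ω, h x = v := by
  unfold NC at H
  push Not at H
  exact H

section

variable {E : Type} [NormedAddCommGroup E] [NormedSpace ℂ E] {n N : ℕ} {Ω : Set E} {f : Fin n → E → ℂ}

/-- at the points near a point at which the representatives have no poles there are points of `Dom` -/
lemma upgrade (hΩ : IsOpen Ω) (hp : IsPreconnected Ω) (hf : ∀ i, AnalyticOnNhd ℂ (f i) Ω)
    (hpole : ∀ i, ∀ m : ℕ, ¬ ∀ x ∈ Ω, f i x = -m) {a : Fin N → Fin n} {κ : Type} {e : κ → Fin N ⊕ Fin N}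
    {P : MvPolynomial κ ℂ} {x₀ : E} (hx₀ : x₀ ∈ Ω) (h0 : ∀ j, ∀ m : ℕ, f (a j) x₀ ≠ -m)
    (hP : eval (fun k => vals (fun i => f (a i) x₀) (e k)) P ≠ 0) :
    ∃ x ∈ Dom Ω f, eval (fun k => vals (fun i => f (a i) x) (e k)) P ≠ 0 := by
  classical
  have hcont : ContinuousAt (fun x => eval (fun k => vals (fun i => f (a i) x) (e k)) P) x₀ := by
    refine (MvPolynomial.continuous_eval P).continuousAt.comp (f := fun x k => vals (fun i => f (a i) x) (e k)) ?_
    rw [continuousAt_pi]
    intro k
    rcases hk : e k with i | i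
    · have : (fun x => vals (fun i => f (a i) x) (e k)) = f (a i) := by
        funext x
        rw [hk]
        rfl
      rw [← hk, this]
      exact (hf (a i) x₀ hx₀).continuousAt
    · have : (fun x => vals (fun i => f (a i) x) (e k)) = fun x => Complex.Gamma (f (a i) x) := by
        funext x
        rw [hk]
        rfl
      rw [← hk, this]
      exact (Complex.differentiableAt_Gamma _ (h0 i)).continuousAt.comp (f := f (a i))
        (hf (a i) x₀ hx₀).continuousAt
  have hev : ∀ᶠ x in 𝓝 x₀, x ∈ Ω ∧ eval (fun k => vals (fun i => f (a i) x) (e k)) P ≠ 0 :=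
    (hΩ.eventually_mem hx₀).and (hcont.eventually_ne hP)
  obtain ⟨ε, hε, hball⟩ := Metric.eventually_nhds_iff_ball.1 hev
  obtain ⟨x, hx, hg⟩ := good (ν := {i : Fin n // NC Ω (f i)}) hp (u := fun i => f i.1) (fun i => hf i.1)
    (fun i => i.2) (W := Metric.ball x₀ ε) Metric.isOpen_ball (fun x hx => (hball x hx).1)
    ⟨_, Metric.mem_ball_self hε⟩
  refine ⟨x, ⟨(hball x hx).1, fun i m => ?_⟩, (hball x hx).2⟩
  by_cases hi : NC Ω (f i)
  · exact g_ne_of (hg ⟨i, hi⟩) m
  · obtain ⟨v, hv⟩ := const_of_not_NC hi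
    intro h
    apply hpole i m
    intro y hy
    rw [hv y hy, ← hv x (hball x hx).1, h]

lemma rank_eq (hΩ : IsOpen Ω) {a : Fin N → Fin n} (ha : Reps Ω f a) {x : E} (hx : x ∈ Ω) :
    rk f x = rk (fun j => f (a j)) x := by
  unfold rk
  suffices H : Submodule.span ℂ (Set.range fun i => fderiv ℂ (f i) x) =
      Submodule.span ℂ (Set.range fun j => fderiv ℂ (f (a j)) x) by rw [H]
  apply le_antisymm
  · rw [Submodule.span_le]
    rintro _ ⟨i, rfl⟩
    by_cases hi : NC Ω (f i)
    · obtain ⟨j, m, hm⟩ := ha.2.2 i hi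
      have h1 : f i =ᶠ[𝓝 x] fun y => f (a j) y + m := by
        filter_upwards [hΩ.mem_nhds hx] with y hy using hm y hy
      have h2 : fderiv ℂ (f i) x = fderiv ℂ (f (a j)) x := by
        rw [h1.fderiv_eq, fderiv_add_const]
      change fderiv ℂ (f i) x ∈ _
      rw [h2]
      exact Submodule.subset_span ⟨j, rfl⟩
    · obtain ⟨v, hv⟩ := const_of_not_NC hi
      have h1 : f i =ᶠ[𝓝 x] fun _ => v := by
        filter_upwards [hΩ.mem_nhds hx] with y hy using hv y hy
      have h2 : fderiv ℂ (f i) x = 0 := by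
        rw [h1.fderiv_eq]
        simp
      change fderiv ℂ (f i) x ∈ _
      rw [h2]
      exact Submodule.zero_mem _
  · rw [Submodule.span_le]
    rintro _ ⟨j, rfl⟩
    exact Submodule.subset_span ⟨a j, rfl⟩

/-- the lower bound, from the theorem of Ax-Schanuel type in codimension at most one -/
lemma lower [FiniteDimensional ℂ E] (hΩ : IsOpen Ω) (hp : IsPreconnected Ω) (hf : ∀ i, AnalyticOnNhd ℂ (f i) Ω)
    (hpole : ∀ i, ∀ m : ℕ, ¬ ∀ x ∈ Ω, f i x = -m) {a : Fin N → Fin n} (ha : Reps Ω f a) {r : ℕ}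
    (hr : ∃ x ∈ Ω, rk f x = r) :
    ∃ e : Fin (min N (r + 1) + r) → Fin N ⊕ Fin N, Function.Injective e ∧
      ∀ P : MvPolynomial (Fin (min N (r + 1) + r)) ℂ,
        (∀ x ∈ Dom Ω f, eval (fun k => vals (fun i => f (a i) x) (e k)) P = 0) → P = 0 := by
  obtain ⟨x₀, hx₀, hr⟩ := hr
  obtain ⟨e, he, H⟩ := ax hΩ hp (f := fun j => f (a j)) (fun j => hf (a j)) ha.1 ha.2.1
    ⟨x₀, hx₀, (rank_eq hΩ ha hx₀).symm.trans hr⟩
  refine ⟨e, he, fun P hP => ?_⟩
  by_contra hP0
  obtain ⟨x, hx, h1, h2⟩ := H P hP0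
  obtain ⟨y, hy, h3⟩ := upgrade hΩ hp hf hpole hx h1 h2
  exact h3 (hP y hy)

lemma reps_inj {a : Fin N → Fin n} (ha : Reps Ω f a) : Function.Injective a := by
  intro i j h
  by_contra hij
  apply ha.2.1 i j hij 0
  intro x _
  rw [h]
  simp

lemma lower_ge [FiniteDimensional ℂ E] (hΩ : IsOpen Ω) (hp : IsPreconnected Ω)
    (hf : ∀ i, AnalyticOnNhd ℂ (f i) Ω)
    (hpole : ∀ i, ∀ m : ℕ, ¬ ∀ x ∈ Ω, f i x = -m) {a : Fin N → Fin n} (ha : Reps Ω f a) {r : ℕ}
    (hr : ∃ x ∈ Ω, rk f x = r) : TrdegGe (Dom Ω f) (Sum.elim f (Gam f)) (min N (r + 1) + r) := by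
  obtain ⟨e, he, H⟩ := lower hΩ hp hf hpole ha hr
  refine ⟨fun k => Sum.map a a (e k), (Function.Injective.sumMap (reps_inj ha) (reps_inj ha)).comp he, fun P hP => ?_⟩
  refine H P fun x hx => ?_
  rw [← hP x hx]
  congr 2
  funext k
  change vals (fun i => f (a i) x) (e k) = Sum.elim f (Gam f) (Sum.map a a (e k)) x
  rcases e k with i | i <;> rfl

lemma rk_le (hΩ : IsOpen Ω) {a : Fin N → Fin n} (ha : Reps Ω f a) {x : E} (hx : x ∈ Ω) : rk f x ≤ N := by
  rw [rank_eq hΩ ha hx]
  have := finrank_range_le_card (R := ℂ) (fun j : Fin N => fderiv ℂ (f (a j)) x)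
  rw [Fintype.card_fin] at this
  exact this

/-- the representatives can be chosen such that the other functions are obtained by adding natural numbers -/
lemma min_reps (hne : Ω.Nonempty) {a : Fin N → Fin n} (ha : Reps Ω f a) :
    ∃ b : Fin N → Fin n, Reps Ω f b ∧ ∀ i, NC Ω (f i) → ∃ j, ∃ m : ℕ, ∀ x ∈ Ω, f i x = f (b j) x + m := by
  classical
  obtain ⟨x₀, hx₀⟩ := hne
  have hmin : ∀ j, ∃ i, (∃ m : ℤ, ∀ x ∈ Ω, f i x = f (a j) x + m) ∧
      ∀ i', (∃ m : ℤ, ∀ x ∈ Ω, f i' x = f (a j) x + m) → (f i x₀).re ≤ (f i' x₀).re := by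
    intro j
    obtain ⟨i, hi, hi2⟩ := Finset.exists_min_image
      (Finset.univ.filter fun i : Fin n => ∃ m : ℤ, ∀ x ∈ Ω, f i x = f (a j) x + m) (fun i => (f i x₀).re)
      ⟨a j, by
        rw [Finset.mem_filter]
        exact ⟨Finset.mem_univ _, 0, fun x _ => by simp⟩⟩
    rw [Finset.mem_filter] at hi
    exact ⟨i, hi.2, fun i' hi' => hi2 i' (Finset.mem_filter.2 ⟨Finset.mem_univ _, hi'⟩)⟩
  choose b hb hb2 using hmin
  choose m hm using hb
  refine ⟨b, ⟨fun j v hv => ?_, fun j k hjk m' hm' => ?_, fun i hi => ?_⟩, fun i hi => ?_⟩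
  · apply ha.1 j (v - m j)
    intro x hx
    have h1 := hm j x hx
    have h2 := hv x hx
    rw [h2] at h1
    rw [h1]
    ring
  · apply ha.2.1 j k hjk (m' + m k - m j)
    intro x hx
    have h1 := hm j x hx
    have h2 := hm k x hx
    have h3 := hm' x hx
    push_cast
    linear_combination h3 - h1 + h2
  · obtain ⟨j, m', hm'⟩ := ha.2.2 i hi
    refine ⟨j, m' - m j, fun x hx => ?_⟩
    have h1 := hm j x hx
    have h2 := hm' x hx
    push_cast
    linear_combination h2 - h1
  · obtain ⟨j, m', hm'⟩ := ha.2.2 i hi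
    have h1 := hm j x₀ hx₀
    have h2 := hm' x₀ hx₀
    have h3 := hb2 j i ⟨m', hm'⟩
    have h4 : (f i x₀).re - (f (b j) x₀).re = ((m' - m j : ℤ) : ℝ) := by
      rw [h1, h2]
      simp
    have h5 : 0 ≤ m' - m j := by
      have : (0 : ℝ) ≤ ((m' - m j : ℤ) : ℝ) := by
        rw [← h4]
        linarith
      exact_mod_cast this
    refine ⟨j, (m' - m j).toNat, fun x hx => ?_⟩
    have h6 := hm j x hx
    have h7 := hm' x hx
    have h8 : (((m' - m j).toNat : ℕ) : ℂ) = ((m' - m j : ℤ) : ℂ) := by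
      have := Int.toNat_of_nonneg h5
      exact_mod_cast congrArg (Int.cast (R := ℂ)) this
    rw [h8]
    push_cast
    linear_combination h7 - h6

lemma upper (hne : Ω.Nonempty) {a : Fin N → Fin n} (ha : Reps Ω f a) :
    ¬ TrdegGe (Dom Ω f) (Sum.elim f (Gam f)) (2 * N + 1) := by
  classical
  obtain ⟨b, hb, hb2⟩ := min_reps hne ha
  have hS : ∀ s : Fin n ⊕ Fin n, ∃ S : MvPolynomial (Fin N ⊕ Fin N) ℂ, ∀ x ∈ Dom Ω f,
      Sum.elim f (Gam f) s x = eval (vals fun j => f (b j) x) S := by
    rintro (i | i)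
    · by_cases hi : NC Ω (f i)
      · obtain ⟨j, m, hm⟩ := hb2 i hi
        refine ⟨X (Sum.inl j) + C (m : ℂ), fun x hx => ?_⟩
        rw [map_add, eval_X, eval_C]
        exact hm x hx.1
      · obtain ⟨v, hv⟩ := const_of_not_NC hi
        refine ⟨C v, fun x hx => ?_⟩
        rw [eval_C]
        exact hv x hx.1
    · by_cases hi : NC Ω (f i)
      · obtain ⟨j, m, hm⟩ := hb2 i hi
        refine ⟨X (Sum.inr j) * Polynomial.aeval (X (Sum.inl j) : MvPolynomial (Fin N ⊕ Fin N) ℂ)
          (ascPochhammer ℂ m), fun x hx => ?_⟩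
        have h1 : Sum.elim f (Gam f) (Sum.inr i) x = Complex.Gamma (f (b j) x + m) := by
          rw [← hm x hx.1]
          rfl
        rw [h1, gamma_add (fun l => hx.2 (b j) l) m, map_mul, eval_X, eval_aeval]
        rfl
      · obtain ⟨v, hv⟩ := const_of_not_NC hi
        refine ⟨C (Complex.Gamma v), fun x hx => ?_⟩
        rw [eval_C]
        change Complex.Gamma (f i x) = _
        rw [hv x hx.1]
  choose S hS using hS
  refine not_trdegGe (fun x => vals fun j => f (b j) x) S hS ?_
  rw [Fintype.card_sum, Fintype.card_fin]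
  omega

lemma exists_reps (Ω : Set E) (f : Fin n → E → ℂ) : ∃ (N : ℕ) (a : Fin N → Fin n), Reps Ω f a := by
  classical
  let s : Setoid {i : Fin n // NC Ω (f i)} :=
    { r := fun i j => ∃ m : ℤ, ∀ x ∈ Ω, f i.1 x = f j.1 x + m
      iseqv :=
        { refl := fun i => ⟨0, fun x _ => by simp⟩
          symm := fun {i j} h => by
            obtain ⟨m, hm⟩ := h
            exact ⟨-m, fun x hx => by rw [hm x hx]; push_cast; ring⟩
          trans := fun {i j k} h h' => by
            obtain ⟨m, hm⟩ := h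
            obtain ⟨m', hm'⟩ := h'
            exact ⟨m' + m, fun x hx => by rw [hm x hx, hm' x hx]; push_cast; ring⟩ } }
  let q := Finite.equivFin (Quotient s)
  refine ⟨Nat.card (Quotient s), fun k => (q.symm k).out.1, fun k => (q.symm k).out.2, ?_, ?_⟩
  · intro k l hkl m hm
    apply hkl
    have h1 : (⟦(q.symm k).out⟧ : Quotient s) = ⟦(q.symm l).out⟧ := Quotient.sound ⟨m, hm⟩
    rw [Quotient.out_eq, Quotient.out_eq] at h1
    exact q.symm.injective h1
  · intro i hi
    refine ⟨q ⟦⟨i, hi⟩⟧, ?_⟩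
    have h1 : s.r ⟨i, hi⟩ (⟦⟨i, hi⟩⟧ : Quotient s).out := by
      have := Quotient.mk_out (s := s) ⟨i, hi⟩
      exact Setoid.symm this
    obtain ⟨m, hm⟩ := h1
    refine ⟨m, fun x hx => ?_⟩
    beta_reduce
    rw [Equiv.symm_apply_apply]
    exact hm x hx

variable [FiniteDimensional ℂ E]

/-- if there are as many representatives as the rank, all `2 N` functions are algebraically independent -/
lemma full (hΩ : IsOpen Ω) (hp : IsPreconnected Ω) (hf : ∀ i, AnalyticOnNhd ℂ (f i) Ω)
    (hpole : ∀ i, ∀ m : ℕ, ¬ ∀ x ∈ Ω, f i x = -m) {a : Fin N → Fin n} (ha : Reps Ω f a)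
    (hr : ∃ x ∈ Ω, rk f x = N) {P : MvPolynomial (Fin N ⊕ Fin N) ℂ}
    (hP : ∀ x ∈ Dom Ω f, eval (vals fun i => f (a i) x) P = 0) : P = 0 := by
  obtain ⟨e, he, H⟩ := lower hΩ hp hf hpole ha hr
  have hb : Function.Bijective e := (Fintype.bijective_iff_injective_and_card e).2 ⟨he, by
    rw [Fintype.card_sum, Fintype.card_fin, Fintype.card_fin]
    omega⟩
  let q := Equiv.ofBijective e hb
  have h1 := H (rename q.symm P) (fun x hx => by
    rw [eval_rename, ← hP x hx]
    congr 2
    funext s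
    change vals _ (q (q.symm s)) = _
    rw [Equiv.apply_symm_apply])
  exact (map_eq_zero_iff _ (rename_injective _ q.symm.injective)).1 h1

lemma full_left (hΩ : IsOpen Ω) (hp : IsPreconnected Ω) (hf : ∀ i, AnalyticOnNhd ℂ (f i) Ω)
    (hpole : ∀ i, ∀ m : ℕ, ¬ ∀ x ∈ Ω, f i x = -m) {a : Fin N → Fin n} (ha : Reps Ω f a)
    (hr : ∃ x ∈ Ω, rk f x = N) : TrdegGe (Dom Ω f) f N := by
  refine ⟨a, reps_inj ha, fun P hP => ?_⟩
  have h1 := full hΩ hp hf hpole ha hr (P := rename Sum.inl P) (fun x hx => by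
    rw [eval_rename]
    exact hP x hx)
  exact (map_eq_zero_iff _ (rename_injective _ Sum.inl_injective)).1 h1

lemma full_right (hΩ : IsOpen Ω) (hp : IsPreconnected Ω) (hf : ∀ i, AnalyticOnNhd ℂ (f i) Ω)
    (hpole : ∀ i, ∀ m : ℕ, ¬ ∀ x ∈ Ω, f i x = -m) {a : Fin N → Fin n} (ha : Reps Ω f a)
    (hr : ∃ x ∈ Ω, rk f x = N) : TrdegGe (Dom Ω f) (Gam f) N := by
  refine ⟨a, reps_inj ha, fun P hP => ?_⟩
  have h1 := full hΩ hp hf hpole ha hr (P := rename Sum.inr P) (fun x hx => by
    rw [eval_rename]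
    exact hP x hx)
  exact (map_eq_zero_iff _ (rename_injective _ Sum.inr_injective)).1 h1

/-- two different functions of one class give one more algebraically independent value of `Γ` -/
lemma gamma_more (hΩ : IsOpen Ω) (hp : IsPreconnected Ω) (hne : Ω.Nonempty) (hf : ∀ i, AnalyticOnNhd ℂ (f i) Ω)
    (hpole : ∀ i, ∀ m : ℕ, ¬ ∀ x ∈ Ω, f i x = -m) {a : Fin N → Fin n} (ha : Reps Ω f a)
    (hr : ∃ x ∈ Ω, rk f x = N) {i : Fin n} {j : Fin N} {m : ℕ} (hm : 0 < m)
    (h : ∀ x ∈ Ω, f i x = f (a j) x + m) : TrdegGe (Dom Ω f) (Gam f) (N + 1) := by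
  classical
  have hnot : ∀ s, a s ≠ i := by
    intro s hs
    by_cases hsj : s = j
    · subst hsj
      obtain ⟨x, hx⟩ := hne
      have h1 := h x hx
      rw [hs] at h1
      have h2 : (m : ℂ) = 0 := by linear_combination -h1
      rw [Nat.cast_eq_zero] at h2
      omega
    · apply ha.2.1 s j hsj m
      intro x hx
      rw [hs, h x hx]
      simp
  have hinj : Function.Injective (fun o : Option (Fin N) => o.elim i a) := by
    rintro (_ | s) (_ | t) hst
    · rfl
    · exact absurd hst.symm (hnot t)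
    · exact absurd hst (hnot s)
    · exact congrArg some (reps_inj ha hst)
  have key := trdegGe_of_fintype (D := Dom Ω f) (h := Gam f) hinj ?_
  · rw [Fintype.card_option, Fintype.card_fin] at key
    exact key
  intro P hP
  -- the polynomial in the independent functions
  let q : Polynomial ℂ := ascPochhammer ℂ m
  let S : Option (Fin N) → MvPolynomial (Fin N ⊕ Fin N) ℂ := fun o =>
    o.elim (X (Sum.inr j) * Polynomial.aeval (X (Sum.inl j)) q) (fun s => X (Sum.inr s))
  have hSv : ∀ (z : Fin N ⊕ Fin N → ℂ) (o : Option (Fin N)), eval z (S o) =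
      o.elim (z (Sum.inr j) * q.eval (z (Sum.inl j))) (fun s => z (Sum.inr s)) := by
    rintro z (_ | s)
    · change eval z (X (Sum.inr j) * Polynomial.aeval (X (Sum.inl j)) q) = _
      rw [map_mul, eval_X, eval_aeval]
      rfl
    · exact eval_X _
  have hcomp : ∀ z : Fin N ⊕ Fin N → ℂ, eval z (bind₁ S P) = eval (fun o => eval z (S o)) P := fun z =>
    eval₂Hom_bind₁ (RingHom.id ℂ) z S P
  have hQ : bind₁ S P = 0 := by
    refine full hΩ hp hf hpole ha hr fun x hx => ?_
    rw [hcomp, ← hP x hx]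
    congr 2
    funext o
    rw [hSv]
    rcases o with _ | s
    · change Complex.Gamma (f (a j) x) * q.eval (f (a j) x) = Complex.Gamma (f i x)
      rw [h x hx.1, gamma_add (fun l => hx.2 (a j) l) m]
    · rfl
  have hzero : P * X (some j) = 0 := by
    refine MvPolynomial.funext fun z => ?_
    rw [map_zero, map_mul, eval_X]
    by_cases hz : z (some j) = 0
    · rw [hz, mul_zero]
    · have hdeg : (q - Polynomial.C (z none / z (some j))).degree ≠ 0 := by
        have h1 : q.natDegree = m := ascPochhammer_natDegree ℂ m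
        have h2 : (q - Polynomial.C (z none / z (some j))).natDegree = m := by
          rw [Polynomial.natDegree_sub_C, h1]
        intro h3
        have h4 : (q - Polynomial.C (z none / z (some j))).natDegree = 0 :=
          Polynomial.natDegree_eq_zero_iff_degree_le_zero.2 h3.le
        rw [h2] at h4
        omega
      obtain ⟨w, hw⟩ := IsAlgClosed.exists_root _ hdeg
      have hw' : q.eval w = z none / z (some j) := by
        have h1 : (q - Polynomial.C (z none / z (some j))).eval w = 0 := hw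
        rw [Polynomial.eval_sub, Polynomial.eval_C] at h1
        exact sub_eq_zero.1 h1
      have h3 := congrArg (eval (Sum.elim (fun _ => w) (fun s => z (some s)) : Fin N ⊕ Fin N → ℂ)) hQ
      rw [hcomp, map_zero] at h3
      have h4 : (fun o => eval (Sum.elim (fun _ => w) (fun s => z (some s)) : Fin N ⊕ Fin N → ℂ) (S o)) = z := by
        funext o
        rw [hSv]
        rcases o with _ | s
        · change z (some j) * q.eval w = z none
          rw [hw']
          field_simp
        · rfl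
      rw [h4] at h3
      rw [h3, zero_mul]
  rcases mul_eq_zero.1 hzero with h1 | h1
  · exact h1
  · exact absurd h1 (X_ne_zero _)

lemma reps_update {a : Fin N → Fin n} (ha : Reps Ω f a) {i : Fin n} (hi : NC Ω (f i)) {j : Fin N} {m : ℤ}
    (h : ∀ x ∈ Ω, f i x = f (a j) x + m) : Reps Ω f (Function.update a j i) := by
  classical
  refine ⟨fun s => ?_, fun s t hst m' hm' => ?_, fun i' hi' => ?_⟩
  · by_cases hs : s = j
    · subst hs
      rw [Function.update_self]
      exact hi
    · rw [Function.update_of_ne hs]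
      exact ha.1 s
  · by_cases hs : s = j
    · subst hs
      rw [Function.update_self, Function.update_of_ne (Ne.symm hst)] at hm'
      apply ha.2.1 s t hst (m' - m)
      intro x hx
      push_cast
      linear_combination hm' x hx - h x hx
    · by_cases ht : t = j
      · subst ht
        rw [Function.update_self, Function.update_of_ne hs] at hm'
        apply ha.2.1 s t hst (m' + m)
        intro x hx
        push_cast
        linear_combination hm' x hx + h x hx
      · rw [Function.update_of_ne ht, Function.update_of_ne hs] at hm'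
        exact ha.2.1 s t hst m' hm'
  · obtain ⟨s, m', hm'⟩ := ha.2.2 i' hi'
    by_cases hs : s = j
    · subst hs
      refine ⟨s, m' - m, fun x hx => ?_⟩
      rw [Function.update_self]
      push_cast
      linear_combination hm' x hx - h x hx
    · refine ⟨s, m', fun x hx => ?_⟩
      rw [Function.update_of_ne hs]
      exact hm' x hx

/-- if the transcendence degrees of the functions and of their Gamma values are small together then there are no
relations besides equalities -/
lemma bialg (hΩ : IsOpen Ω) (hp : IsPreconnected Ω) (hne : Ω.Nonempty) (hf : ∀ i, AnalyticOnNhd ℂ (f i) Ω)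
    (hpole : ∀ i, ∀ m : ℕ, ¬ ∀ x ∈ Ω, f i x = -m) {r : ℕ} (hr : ∃ x ∈ Ω, rk f x = r) {k l : ℕ}
    (H1 : ¬ TrdegGe (Dom Ω f) f (k + 1)) (H2 : ¬ TrdegGe (Dom Ω f) (Gam f) (l + 1)) :
    2 * r ≤ k + l ∧ (k + l = 2 * r → k = r ∧ l = r ∧ Distinct Ω f r) := by
  classical
  obtain ⟨N, a, ha⟩ := exists_reps Ω f
  have h1 := not_trdegGe_sum H1 H2
  have h2 := lower_ge hΩ hp hf hpole ha hr
  have hrN : r ≤ N := by
    obtain ⟨x, hx, h3⟩ := hr
    rw [← h3]
    exact rk_le hΩ ha hx
  have h3 : min N (r + 1) + r ≤ k + l := by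
    by_contra hcon
    exact h1 (trdegGe_mono (by omega) h2)
  refine ⟨by omega, fun hkl => ?_⟩
  have hN : N = r := by omega
  subst hN
  have h4 : N ≤ k := by
    by_contra hcon
    exact H1 (trdegGe_mono (by omega) (full_left hΩ hp hf hpole ha hr))
  have h5 : N ≤ l := by
    by_contra hcon
    exact H2 (trdegGe_mono (by omega) (full_right hΩ hp hf hpole ha hr))
  refine ⟨by omega, by omega, a, ha.1, fun s t hst hh => ha.2.1 s t hst 0 fun x hx => ?_, fun i hi => ?_⟩
  · rw [hh x hx]
    simp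
  · obtain ⟨j, m, hm⟩ := ha.2.2 i hi
    refine ⟨j, ?_⟩
    have hl : l = N := by omega
    subst hl
    rcases lt_trichotomy m 0 with hm0 | hm0 | hm0
    · exfalso
      apply H2
      have hu := reps_update ha hi hm
      refine gamma_more hΩ hp hne hf hpole hu hr (i := a j) (j := j) (m := (-m).toNat) (by omega) ?_
      intro x hx
      rw [Function.update_self]
      have h8 : (((-m).toNat : ℕ) : ℂ) = ((-m : ℤ) : ℂ) := by
        have := Int.toNat_of_nonneg (a := -m) (by omega)
        exact_mod_cast congrArg (Int.cast (R := ℂ)) this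
      rw [h8]
      push_cast
      linear_combination -hm x hx
    · subst hm0
      intro x hx
      have := hm x hx
      simpa using this
    · exfalso
      apply H2
      refine gamma_more hΩ hp hne hf hpole ha hr (i := i) (j := j) (m := m.toNat) (by omega) ?_
      intro x hx
      have h8 : ((m.toNat : ℕ) : ℂ) = (m : ℂ) := by
        have := Int.toNat_of_nonneg (a := m) (by omega)
        exact_mod_cast congrArg (Int.cast (R := ℂ)) this
      rw [h8]
      exact hm x hx

lemma distinct_small {r : ℕ} (h : Distinct Ω f r) :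
    ¬ TrdegGe (Dom Ω f) f (r + 1) ∧ ¬ TrdegGe (Dom Ω f) (Gam f) (r + 1) := by
  classical
  obtain ⟨a, -, -, ha⟩ := h
  constructor
  · have hS : ∀ i : Fin n, ∃ S : MvPolynomial (Fin r) ℂ, ∀ x ∈ Dom Ω f, f i x = eval (fun j => f (a j) x) S := by
      intro i
      by_cases hi : NC Ω (f i)
      · obtain ⟨j, hj⟩ := ha i hi
        exact ⟨X j, fun x hx => by rw [eval_X, hj x hx.1]⟩
      · obtain ⟨v, hv⟩ := const_of_not_NC hi
        exact ⟨C v, fun x hx => by rw [eval_C, hv x hx.1]⟩
    choose S hS using hS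
    exact not_trdegGe (fun x j => f (a j) x) S hS (by rw [Fintype.card_fin]; omega)
  · have hS : ∀ i : Fin n, ∃ S : MvPolynomial (Fin r) ℂ, ∀ x ∈ Dom Ω f,
        Gam f i x = eval (fun j => Complex.Gamma (f (a j) x)) S := by
      intro i
      by_cases hi : NC Ω (f i)
      · obtain ⟨j, hj⟩ := ha i hi
        refine ⟨X j, fun x hx => ?_⟩
        rw [eval_X]
        change Complex.Gamma (f i x) = _
        rw [hj x hx.1]
      · obtain ⟨v, hv⟩ := const_of_not_NC hi
        refine ⟨C (Complex.Gamma v), fun x hx => ?_⟩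
        rw [eval_C]
        change Complex.Gamma (f i x) = _
        rw [hv x hx.1]
    choose S hS using hS
    exact not_trdegGe (fun x j => Complex.Gamma (f (a j) x)) S hS (by rw [Fintype.card_fin]; omega)

end

end Pool.Agent.U297.BA
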